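import Pool.Agent.helper64.D2.SpecC

/-!
# Project dc, module GLU: gluing of sequences
-/

set_option autoImplicit false

open Filter Topology
open scoped commutatorElement

namespace Pool.Agent.helper64.D2

theorem GLU : GLU_stmt := by
  intro α k Z d hk
  refine ⟨fun n => if k 0 ≤ n then Z (Nat.findGreatest (fun i => k i ≤ n) n) n else d,
    fun n hn => if_neg (not_le.2 hn), fun i n h1 h2 => ?_⟩
  have h0 : k 0 ≤ n := (hk.monotone (Nat.zero_le i)).trans h1
  have hi : i ≤ n := (hk.id_le i).trans h1
  have e : Nat.findGreatest (fun i => k i ≤ n) n = i := by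
    apply le_antisymm
    · by_contra hc
      have hc' : i < Nat.findGreatest (fun i => k i ≤ n) n := not_le.1 hc
      have h3 : k (Nat.findGreatest (fun i => k i ≤ n) n) ≤ n :=
        Nat.findGreatest_spec (P := fun i => k i ≤ n) hi h1
      have h4 := hk.monotone (Nat.succ_le_of_lt hc')
      exact absurd (h4.trans h3) (not_le.2 h2)
    · exact Nat.le_findGreatest hi h1
  show (if k 0 ≤ n then Z (Nat.findGreatest (fun i => k i ≤ n) n) n else d) = Z i n
  rw [if_pos h0, e]

end Pool.Agent.helper64.D2
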